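import Mathlib
import Pool.Agent.Y855.N1
import Pool.Agent.Results.MP_ce1e3b_an.NotDense

set_option autoImplicit false

/-!
# Norm-attaining `n`-linear forms on `C(K)` need not be dense, for every `n ≥ 3`

There is one compact metrizable space `K` such that for EVERY `n ≥ 3` some bounded `n`-linear form on
`C(K)` (real scalars) has distance at least `1 / 6144` from every norm-attaining `n`-linear form.

The step from `3` to `n`: let `A` be a `3`-linear form and let `φ` be the evaluation at a point.  If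
`B` is norm-attaining and close to `A(f_1, f_2, f_3) φ(f_4) ⋯ φ(f_n)`, freeze the last variables of `B`
at a point where `B` attains its norm: the result is a norm-attaining `3`-linear form close to
`c A` with `|c| ≤ 1`, and `|c|` must be close to `1`.
-/

namespace Pool.Agent.Results.MP_ce1e3b_an.AllDegrees

/-- A bounded `n`-linear form on `C(K, ℝ)` is norm-attaining if `|B(f_1, …, f_n)| = ‖B‖` for some
`f_1, …, f_n` in the closed unit ball. -/
def NormAttaining {K : Type} [TopologicalSpace K] [CompactSpace K] {n : ℕ}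
    (B : ContinuousMultilinearMap ℝ (fun _ : Fin n => C(K, ℝ)) ℝ) : Prop :=
  ∃ f : Fin n → C(K, ℝ), (∀ i, ‖f i‖ ≤ 1) ∧ |B f| = ‖B‖

lemma gap_nonpos {E : Type*} [NormedAddCommGroup E] [NormedSpace ℝ E] {n : ℕ}
    (A : ContinuousMultilinearMap ℝ (fun _ : Fin n => E) ℝ) (h0 : A = 0) (δ : ℝ)
    (hA : ∀ B : ContinuousMultilinearMap ℝ (fun _ : Fin n => E) ℝ,
      (∃ f : Fin n → E, (∀ i, ‖f i‖ ≤ 1) ∧ |B f| = ‖B‖) → δ ≤ ‖A - B‖) : δ ≤ 0 := by
  subst h0
  have h := hA 0 ⟨0, fun i => by simp, by simp⟩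
  simpa using h

/-- There is a compact metrizable space `K` such that for every `n ≥ 3` some bounded `n`-linear form on
`C(K)` has distance at least `1 / 6144` from every norm-attaining `n`-linear form; in particular the
norm-attaining `n`-linear forms on `C(K)` are not dense, for every `n ≥ 3`. -/
theorem result :
    ∃ (K : Type) (_ : TopologicalSpace K) (_ : CompactSpace K) (_ : T2Space K)
      (_ : TopologicalSpace.MetrizableSpace K), ∀ n : ℕ, 3 ≤ n →
      (∃ A : ContinuousMultilinearMap ℝ (fun _ : Fin n => C(K, ℝ)) ℝ,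
        ∀ B : ContinuousMultilinearMap ℝ (fun _ : Fin n => C(K, ℝ)) ℝ,
          NormAttaining B → 1 / 6144 ≤ ‖A - B‖) ∧
      ¬ Dense {B : ContinuousMultilinearMap ℝ (fun _ : Fin n => C(K, ℝ)) ℝ |
          NormAttaining B} := by
  obtain ⟨K, t1, t2, t3, t4, ⟨A, hA⟩, -⟩ := NotDense.result
  refine ⟨K, t1, t2, t3, t4, fun n hn => ?_⟩
  have hne : Nonempty K := by
    by_contra hcon
    rw [not_nonempty_iff] at hcon
    have h0 : ∀ f : Fin 3 → C(K, ℝ), f 0 = 0 := fun f => by
      ext x
      exact (hcon.false x).elim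
    have h1 : A = 0 := by
      ext f
      exact A.map_coord_zero 0 (h0 f)
    have h3 := gap_nonpos A h1 (1 / 2048) (fun B hB => hA B hB)
    norm_num at h3
  obtain ⟨t⟩ := hne
  obtain ⟨m, rfl⟩ : ∃ m, n = 3 + m := ⟨n - 3, by omega⟩
  let φ : C(K, ℝ) →L[ℝ] ℝ := ContinuousMap.evalCLM ℝ t
  have hφ : ‖φ‖ ≤ 1 := by
    refine φ.opNorm_le_bound zero_le_one fun f => ?_
    rw [one_mul]
    exact f.norm_coe_le_norm t
  have hu : ‖(1 : C(K, ℝ))‖ ≤ 1 := by
    refine (ContinuousMap.norm_le _ zero_le_one).2 fun x => ?_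
    simp
  have hφu : φ 1 = 1 := rfl
  obtain ⟨A', hA'⟩ := Pool.Agent.Y855.NA.lift 3 m A (1 / 2048) (fun B hB => hA B hB) φ hφ 1 hu hφu
  have hmain : ∀ B : ContinuousMultilinearMap ℝ (fun _ : Fin (3 + m) => C(K, ℝ)) ℝ,
      NormAttaining B → 1 / 6144 ≤ ‖A' - B‖ := by
    intro B hB
    have := hA' B hB
    norm_num at this ⊢
    exact this
  refine ⟨⟨A', hmain⟩, fun hd => ?_⟩
  obtain ⟨B, hB, hBA⟩ := Metric.dense_iff.mp hd A' (1 / 6144) (by norm_num)
  have h1 := hmain B hBA
  rw [Metric.mem_ball, dist_comm, dist_eq_norm] at hB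
  linarith

end Pool.Agent.Results.MP_ce1e3b_an.AllDegrees
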